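import Pool.Agent.Helper81.XP.StA

set_option autoImplicit false

open Finset
open scoped Pointwise LinearAlgebra.Projectivization

namespace Pool.Agent.Helper52.XP

open Pool.Agent.Helper81.XP

/-- arithmetic of three orbits -/
theorem three_ord (s1 s2 s3 n1 n2 n3 N : ℕ) (h1 : s1 * n1 = N) (h2 : s2 * n2 = N)
    (h3 : s3 * n3 = N) (hn : 2 ≤ n1) (h12 : n1 ≤ n2) (h23 : n2 ≤ n3)
    (hs : s1 + s2 + s3 = N + 2) : s3 ≤ 2 ∨ N ≤ 60 := by
  by_contra hcon
  obtain ⟨hs3, hN⟩ := not_or.1 hcon
  have hmul : ∀ s n k : ℕ, s * n = N → k ≤ n → s * k ≤ N := by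
    intro s n k h hk
    rw [← h]
    exact Nat.mul_le_mul_left s hk
  have hn1 : n1 = 2 := by
    by_contra h
    have h0 : 3 ≤ n1 := by omega
    have e1 := hmul s1 n1 3 h1 h0
    have e2 := hmul s2 n2 3 h2 (by omega)
    have e3 := hmul s3 n3 3 h3 (by omega)
    omega
  subst hn1
  have hn2 : n2 < 4 := by
    by_contra h
    have e2 := hmul s2 n2 4 h2 (by omega)
    have e3 := hmul s3 n3 4 h3 (by omega)
    omega
  have hn3 : n3 < 6 ∨ n2 = 2 := by
    by_contra h
    obtain ⟨ha, hb⟩ := not_or.1 h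
    have hn2' : n2 = 3 := by omega
    subst hn2'
    have e3 := hmul s3 n3 6 h3 (by omega)
    omega
  rcases hn3 with hn3 | hn3
  · have hn2' : n2 = 2 ∨ n2 = 3 := by omega
    rcases hn2' with hn2' | hn2'
    · subst hn2'
      omega
    · subst hn2'
      have hn3' : n3 = 3 ∨ n3 = 4 ∨ n3 = 5 := by omega
      rcases hn3' with hn3' | hn3' | hn3' <;> subst hn3' <;> omega
  · subst hn3
    omega

theorem three_any (s1 s2 s3 n1 n2 n3 N : ℕ) (h1 : s1 * n1 = N) (h2 : s2 * n2 = N)
    (h3 : s3 * n3 = N) (hn1 : 2 ≤ n1) (hn2 : 2 ≤ n2) (hn3 : 2 ≤ n3)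
    (hs : s1 + s2 + s3 = N + 2) : s1 ≤ 2 ∨ s2 ≤ 2 ∨ s3 ≤ 2 ∨ N ≤ 60 := by
  rcases le_total n1 n2 with h12 | h12 <;> rcases le_total n2 n3 with h23 | h23 <;>
    rcases le_total n1 n3 with h13 | h13
  · rcases three_ord s1 s2 s3 n1 n2 n3 N h1 h2 h3 hn1 h12 h23 hs with h | h
    · exact Or.inr (Or.inr (Or.inl h))
    · exact Or.inr (Or.inr (Or.inr h))
  · rcases three_ord s1 s2 s3 n1 n2 n3 N h1 h2 h3 hn1 h12 h23 hs with h | h
    · exact Or.inr (Or.inr (Or.inl h))
    · exact Or.inr (Or.inr (Or.inr h))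
  · rcases three_ord s1 s3 s2 n1 n3 n2 N h1 h3 h2 hn1 h13 h23 (by omega) with h | h
    · exact Or.inr (Or.inl h)
    · exact Or.inr (Or.inr (Or.inr h))
  · rcases three_ord s3 s1 s2 n3 n1 n2 N h3 h1 h2 hn3 h13 h12 (by omega) with h | h
    · exact Or.inr (Or.inl h)
    · exact Or.inr (Or.inr (Or.inr h))
  · rcases three_ord s2 s1 s3 n2 n1 n3 N h2 h1 h3 hn2 h12 h13 (by omega) with h | h
    · exact Or.inr (Or.inr (Or.inl h))
    · exact Or.inr (Or.inr (Or.inr h))
  · rcases three_ord s2 s3 s1 n2 n3 n1 N h2 h3 h1 hn2 h23 h13 (by omega) with h | h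
    · exact Or.inl h
    · exact Or.inr (Or.inr (Or.inr h))
  · rcases three_ord s3 s2 s1 n3 n2 n1 N h3 h2 h1 hn3 h23 h12 (by omega) with h | h
    · exact Or.inl h
    · exact Or.inr (Or.inr (Or.inr h))
  · rcases three_ord s3 s2 s1 n3 n2 n1 N h3 h2 h1 hn3 h23 h12 (by omega) with h | h
    · exact Or.inl h
    · exact Or.inr (Or.inr (Or.inr h))

/-- small orbits -/
theorem small_orb (G Y : Type) [Group G] [Finite G] [MulAction G Y] (y : Y)
    (h : (MulAction.orbit G y).ncard ≤ 2) : ∃ y1 y2 : Y, ∀ g : G,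
    (g • y1 = y1 ∨ g • y1 = y2) ∧ (g • y2 = y1 ∨ g • y2 = y2) := by
  classical
  by_cases hall : ∀ g : G, g • y = y
  · exact ⟨y, y, fun g => ⟨Or.inl (hall g), Or.inl (hall g)⟩⟩
  · obtain ⟨g0, hg0⟩ := not_forall.1 hall
    have hfin : (MulAction.orbit G y).Finite := Set.finite_range fun g : G => g • y
    have hsub : ({y, g0 • y} : Set Y) ⊆ MulAction.orbit G y := by
      intro z hz
      rcases hz with hz | hz
      · rw [hz]
        exact MulAction.mem_orbit_self y
      · have hz' : z = g0 • y := hz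
        rw [hz']
        exact MulAction.mem_orbit y g0
    have hcard : ({y, g0 • y} : Set Y).ncard = 2 := Set.ncard_pair (fun h => hg0 h.symm)
    have heq := Set.eq_of_subset_of_ncard_le hsub (by rw [hcard]; exact h) hfin
    refine ⟨y, g0 • y, fun g => ⟨?_, ?_⟩⟩
    · have h1 : g • y ∈ ({y, g0 • y} : Set Y) := by
        rw [heq]
        exact MulAction.mem_orbit y g
      exact h1
    · have h1 : g • (g0 • y) ∈ ({y, g0 • y} : Set Y) := by
        rw [heq, ← mul_smul]
        exact MulAction.mem_orbit y (g * g0)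
      exact h1

/-- Burnside counting -/
theorem burn (G Y : Type) [Group G] [Finite G] [MulAction G Y] [Nonempty Y] (Z : Subgroup G)
    (hZn : Z.Normal) (hZc : Nat.card Z ≤ 2) (hZt : ∀ z ∈ Z, ∀ y : Y, z • y = y)
    (hf : ∀ g ∉ Z, ∃ y1 y2 : Y, y1 ≠ y2 ∧ ∀ y : Y, g • y = y ↔ y = y1 ∨ y = y2) :
    Nat.card G ≤ 120 ∨ ∃ y : Y, (MulAction.orbit G y).ncard ≤ 2 := by
  classical
  by_contra hcon
  obtain ⟨hG, hO⟩ := not_or.1 hcon
  have hO' : ∀ y : Y, 3 ≤ (MulAction.orbit G y).ncard := by
    intro y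
    by_contra h
    exact hO ⟨y, by omega⟩
  let _ : Fintype G := Fintype.ofFinite G
  let X : SubMulAction G Y :=
    { carrier := {y | ∃ g ∉ Z, g • y = y}
      smul_mem' := by
        rintro c y ⟨g, hg, hy⟩
        refine ⟨c * g * c⁻¹, fun h => hg ?_, ?_⟩
        · have h1 := hZn.conj_mem _ h c⁻¹
          have h2 : c⁻¹ * (c * g * c⁻¹) * c⁻¹⁻¹ = g := by group
          rw [h2] at h1
          exact h1
        · rw [mul_smul, inv_smul_smul, mul_smul, hy] }
  have hXmem : ∀ y : Y, y ∈ X ↔ ∃ g ∉ Z, g • y = y := fun y => Iff.rfl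
  have hXfin : (X : Set Y).Finite := by
    have h1 : (X : Set Y) ⊆ ⋃ g : {g : G // g ∉ Z}, {y : Y | g.1 • y = y} := by
      intro y hy
      obtain ⟨g, hg, hy⟩ := (hXmem y).1 hy
      exact Set.mem_iUnion.2 ⟨⟨g, hg⟩, hy⟩
    refine Set.Finite.subset (Set.finite_iUnion fun g => ?_) h1
    obtain ⟨y1, y2, -, hy⟩ := hf g.1 g.2
    refine Set.Finite.subset (Set.toFinite {y1, y2}) ?_
    intro y hy'
    exact (hy y).1 hy'
  let _ : Fintype X := hXfin.fintype
  have hstab : ∀ x : X, Z ≤ MulAction.stabilizer G x := by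
    intro x z hz
    rw [MulAction.mem_stabilizer_iff]
    exact Subtype.ext (hZt z hz x.1)
  have hsn : ∀ x : X, (MulAction.orbit G x).ncard * Z.relIndex (MulAction.stabilizer G x) =
      Z.index := by
    intro x
    rw [← MulAction.index_stabilizer, mul_comm]
    exact Subgroup.relIndex_mul_index (hstab x)
  have hn2 : ∀ x : X, 2 ≤ Z.relIndex (MulAction.stabilizer G x) := by
    intro x
    have h0 : Z.relIndex (MulAction.stabilizer G x) ≠ 0 := by
      intro h
      have h2 := hsn x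
      rw [h, mul_zero] at h2
      exact Subgroup.index_ne_zero_of_finite h2.symm
    have h1 : Z.relIndex (MulAction.stabilizer G x) ≠ 1 := by
      intro h
      rw [Subgroup.relIndex_eq_one] at h
      obtain ⟨g, hg, hy⟩ := (hXmem x.1).1 x.2
      exact hg (h (Subtype.ext hy))
    omega
  have hs3 : ∀ x : X, 3 ≤ (MulAction.orbit G x).ncard := by
    intro x
    have h1 := hO' x.1
    rw [← SubMulAction.val_image_orbit x, Set.ncard_image_of_injective _ Subtype.val_injective]
      at h1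
    exact h1
  set a := Nat.card Z with ha
  set N := Z.index with hN
  have haN : a * N = Nat.card G := Subgroup.card_mul_index Z
  have ha0 : 0 < a := Nat.card_pos
  have hN60 : 60 < N := by
    by_contra h
    have h1 : a * N ≤ 2 * 60 := Nat.mul_le_mul hZc (by omega)
    rw [haN] at h1
    omega
  set Q := Quotient (MulAction.orbitRel G X) with hQ
  let _ : Fintype Q := Fintype.ofFinite Q
  have hB := MulAction.sum_card_fixedBy_eq_card_orbits_mul_card_group G X
  have hfix : ∀ g : G, Fintype.card (MulAction.fixedBy X g) =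
      if g ∈ Z then Fintype.card X else 2 := by
    intro g
    by_cases hg : g ∈ Z
    · rw [if_pos hg]
      have h1 : MulAction.fixedBy X g = Set.univ := by
        ext x
        rw [MulAction.mem_fixedBy]
        exact ⟨fun _ => Set.mem_univ x, fun _ => Subtype.ext (hZt g hg x.1)⟩
      rw [← Nat.card_eq_fintype_card, ← Nat.card_eq_fintype_card, h1, Nat.card_univ]
    · rw [if_neg hg]
      obtain ⟨y1, y2, hne, hy⟩ := hf g hg
      have hy1 : y1 ∈ X := (hXmem y1).2 ⟨g, hg, (hy y1).2 (Or.inl rfl)⟩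
      have hy2 : y2 ∈ X := (hXmem y2).2 ⟨g, hg, (hy y2).2 (Or.inr rfl)⟩
      have h1 : MulAction.fixedBy X g = {(⟨y1, hy1⟩ : X), ⟨y2, hy2⟩} := by
        ext x
        rw [MulAction.mem_fixedBy]
        constructor
        · intro h
          have h2 : g • x.1 = x.1 := congrArg Subtype.val h
          rcases (hy x.1).1 h2 with h3 | h3
          · exact Or.inl (Subtype.ext h3)
          · exact Or.inr (Subtype.ext h3)
        · intro h
          refine Subtype.ext ?_
          have h2 : x.1 = y1 ∨ x.1 = y2 := by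
            rcases h with h | h
            · exact Or.inl (congrArg Subtype.val h)
            · exact Or.inr (congrArg Subtype.val h)
          exact (hy x.1).2 h2
      rw [← Nat.card_eq_fintype_card, h1, Nat.card_coe_set_eq, Set.ncard_pair]
      intro h
      exact hne (congrArg Subtype.val h)
  have hcZ : (univ.filter fun g : G => g ∈ Z).card = a := by
    rw [ha, Nat.card_eq_fintype_card, Fintype.card_subtype]
  have hcG : (univ.filter fun g : G => g ∈ Z).card + (univ.filter fun g : G => ¬ g ∈ Z).card =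
      a * N := by
    rw [Finset.card_filter_add_card_filter_not, haN, Nat.card_eq_fintype_card, Finset.card_univ]
  have hsum : ∑ g : G, Fintype.card (MulAction.fixedBy X g) =
      a * Fintype.card X + (a * N - a) * 2 := by
    rw [Finset.sum_congr rfl fun g _ => hfix g, Finset.sum_ite, Finset.sum_const,
      Finset.sum_const, smul_eq_mul, smul_eq_mul, hcZ]
    rw [hcZ] at hcG
    have h1 : (univ.filter fun g : G => ¬ g ∈ Z).card = a * N - a := by omega
    rw [h1]
  rw [hsum] at hB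
  have hcG' : Fintype.card G = a * N := by
    rw [haN, Nat.card_eq_fintype_card]
  rw [hcG'] at hB
  set r := Fintype.card Q with hr
  have hB2 : Fintype.card X + 2 * N = r * N + 2 := by
    have haN' : a ≤ a * N := Nat.le_mul_of_pos_right a (by omega)
    have h1 : a * Fintype.card X + 2 * (a * N) = r * (a * N) + 2 * a := by omega
    have h2 : a * (Fintype.card X + 2 * N) = a * (r * N + 2) := by
      rw [mul_add, mul_add]
      linarith
    exact Nat.eq_of_mul_eq_mul_left ha0 h2
  have hX : Fintype.card X = ∑ ω : Q, (MulAction.orbit G (Quotient.out ω)).ncard := by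
    rw [← Nat.card_eq_fintype_card, Nat.card_congr (MulAction.selfEquivSigmaOrbits G X)]
    rw [Nat.card_sigma]
    rfl
  have hlow : 3 * r ≤ Fintype.card X := by
    rw [hX]
    have h1 : ∑ ω : Q, 3 ≤ ∑ ω : Q, (MulAction.orbit G (Quotient.out ω)).ncard :=
      Finset.sum_le_sum fun ω _ => hs3 _
    rw [Finset.sum_const, Finset.card_univ, smul_eq_mul] at h1
    omega
  have hup : 2 * Fintype.card X ≤ r * N := by
    rw [hX, Finset.mul_sum]
    have h1 : ∑ ω : Q, 2 * (MulAction.orbit G (Quotient.out ω)).ncard ≤ ∑ ω : Q, N := by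
      refine Finset.sum_le_sum fun ω _ => ?_
      rw [← hsn (Quotient.out ω), mul_comm]
      exact Nat.mul_le_mul_left _ (hn2 _)
    rw [Finset.sum_const, Finset.card_univ, smul_eq_mul] at h1
    exact h1
  have hr4 : r < 4 := by
    by_contra h
    have h1 : 4 * N ≤ r * N := Nat.mul_le_mul_right N (by omega)
    omega
  have hr3 : r = 3 := by
    have h1 : r = 0 ∨ r = 1 ∨ r = 2 ∨ r = 3 := by omega
    rcases h1 with h1 | h1 | h1 | h1
    · rw [h1] at hB2
      omega
    · rw [h1] at hB2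
      omega
    · rw [h1] at hB2 hlow
      omega
    · exact h1
  rw [hr, ← Finset.card_univ, Finset.card_eq_three] at hr3
  obtain ⟨q1, q2, q3, h12, h13, h23, hq⟩ := hr3
  rw [hq, Finset.sum_insert (by
      rw [Finset.mem_insert, Finset.mem_singleton]
      exact not_or.2 ⟨h12, h13⟩), Finset.sum_insert (by
      rw [Finset.mem_singleton]
      exact h23), Finset.sum_singleton] at hX
  have hr3' : r = 3 := by
    rw [hr, ← Finset.card_univ, Finset.card_eq_three]
    exact ⟨q1, q2, q3, h12, h13, h23, hq⟩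
  rw [hr3'] at hB2
  rcases three_any _ _ _ _ _ _ N (hsn (Quotient.out q1)) (hsn (Quotient.out q2))
    (hsn (Quotient.out q3)) (hn2 _) (hn2 _) (hn2 _) (by omega) with h | h | h | h
  · have := hs3 (Quotient.out q1)
    omega
  · have := hs3 (Quotient.out q2)
    omega
  · have := hs3 (Quotient.out q3)
    omega
  · omega

/-! ### matrices -/

theorem io_inj (p : ℕ) [Fact p.Prime] : Function.Injective (io p) := by
  intro g h hgh
  ext i j
  have h1 := congrArg (fun m : SL (AlgebraicClosure (ZMod p)) =>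
    (m : Matrix (Fin 2) (Fin 2) (AlgebraicClosure (ZMod p))) i j) hgh
  exact (algebraMap (ZMod p) (AlgebraicClosure (ZMod p))).injective h1

theorem io_neg (p : ℕ) [Fact p.Prime] : io p (-1) = -1 := by
  ext i j
  have h1 : ((io p (-1) : SL (AlgebraicClosure (ZMod p))) :
      Matrix (Fin 2) (Fin 2) (AlgebraicClosure (ZMod p))) i j =
      algebraMap (ZMod p) (AlgebraicClosure (ZMod p))
        (((-1 : SL (ZMod p)) : Matrix (Fin 2) (Fin 2) (ZMod p)) i j) := rfl
  rw [h1, Matrix.SpecialLinearGroup.coe_neg, Matrix.SpecialLinearGroup.coe_neg,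
    Matrix.SpecialLinearGroup.coe_one, Matrix.SpecialLinearGroup.coe_one]
  fin_cases i <;> fin_cases j <;> simp

theorem io_tr (p : ℕ) [Fact p.Prime] (h : SL (ZMod p)) :
    tr (io p h) = algebraMap (ZMod p) (AlgebraicClosure (ZMod p)) (tr h) := by
  unfold tr
  rw [Matrix.trace_fin_two, Matrix.trace_fin_two, map_add]
  rfl

theorem ch (p : ℕ) [Fact p.Prime] (h : SL (ZMod p)) :
    (h : Matrix (Fin 2) (Fin 2) (ZMod p)) * (h : Matrix (Fin 2) (Fin 2) (ZMod p)) =
      tr h • (h : Matrix (Fin 2) (Fin 2) (ZMod p)) - 1 := by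
  have hd := h.2
  rw [Matrix.det_fin_two] at hd
  unfold tr
  rw [Matrix.trace_fin_two]
  ext i j
  fin_cases i <;> fin_cases j <;>
    simp only [Matrix.mul_apply, Fin.sum_univ_two, Matrix.sub_apply, Matrix.smul_apply,
      smul_eq_mul, Matrix.one_apply, Fin.zero_eta, Fin.mk_one, Fin.isValue, if_true,
      zero_ne_one, one_ne_zero, if_false, sub_zero] <;>
    first | ring1 | linear_combination -hd

theorem unip (p : ℕ) [Fact p.Prime] (h : SL (ZMod p)) (e : ZMod p) (he : e ^ 2 = 1)
    (ht : tr h = 2 * e) : (h ^ 2) ^ p = 1 := by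
  have hp : p.Prime := Fact.out
  set M : Matrix (Fin 2) (Fin 2) (ZMod p) := (h : Matrix (Fin 2) (Fin 2) (ZMod p)) with hM
  have hch := ch p h
  rw [ht, ← hM] at hch
  have hc : Commute M (e • (1 : Matrix (Fin 2) (Fin 2) (ZMod p))) :=
    (Commute.one_right M).smul_right e
  have h0 : (M - e • (1 : Matrix (Fin 2) (Fin 2) (ZMod p))) ^ 2 = 0 := by
    have h1 : (M - e • (1 : Matrix (Fin 2) (Fin 2) (ZMod p))) ^ 2 =
        M * M - (2 * e) • M + e ^ 2 • 1 := by
      rw [sq, sub_mul, mul_sub, mul_sub, mul_smul_comm, smul_mul_assoc, mul_one, one_mul,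
        smul_mul_smul_comm, mul_one, sq, two_mul, add_smul]
      abel
    rw [h1, hch, he, one_smul]
    abel
  have h1 : (M - e • (1 : Matrix (Fin 2) (Fin 2) (ZMod p))) ^ p = 0 :=
    pow_eq_zero_of_le hp.two_le h0
  rw [sub_pow_char_of_commute p hc, sub_eq_zero, smul_pow, one_pow] at h1
  have h3 : (M ^ 2) ^ p = 1 := by
    rw [← pow_mul, mul_comm, pow_mul, h1, smul_pow, one_pow, ← pow_mul, mul_comm, pow_mul, he,
      one_pow, one_smul]
  have h4 : (((h ^ 2) ^ p : SL (ZMod p)) : Matrix (Fin 2) (Fin 2) (ZMod p)) = 1 := by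
    rw [Matrix.SpecialLinearGroup.coe_pow, Matrix.SpecialLinearGroup.coe_pow]
    exact h3
  exact Subtype.ext h4

theorem ntr (p : ℕ) [Fact p.Prime] (H : Subgroup (SL (ZMod p))) (hp3 : 3 ≤ p)
    (hH : ¬ p ∣ Nat.card H) (h : H) (h1 : (h : SL (ZMod p)) ≠ 1) (h2 : (h : SL (ZMod p)) ≠ -1) :
    tr (h : SL (ZMod p)) ^ 2 ≠ 4 := by
  intro htr
  have hp : p.Prime := Fact.out
  have h20 : (2 : ZMod p) ≠ 0 := by
    intro h0
    have h3 : ((2 : ℕ) : ZMod p) = 0 := by exact_mod_cast h0
    rw [ZMod.natCast_eq_zero_iff] at h3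
    have := Nat.le_of_dvd (by norm_num) h3
    omega
  have hee : ∃ e : ZMod p, (e = 1 ∨ e = -1) ∧ tr (h : SL (ZMod p)) = 2 * e := by
    have h3 : (tr (h : SL (ZMod p)) - 2) * (tr (h : SL (ZMod p)) + 2) = 0 := by
      linear_combination htr
    rcases mul_eq_zero.1 h3 with h4 | h4
    · exact ⟨1, Or.inl rfl, by linear_combination h4⟩
    · exact ⟨-1, Or.inr rfl, by linear_combination h4⟩
  obtain ⟨e, he, ht⟩ := hee
  have he2 : e ^ 2 = 1 := by
    rcases he with he | he <;> rw [he] <;> ring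
  have hu := unip p h.1 e he2 ht
  have hu' : (h ^ 2) ^ p = 1 := Subtype.ext hu
  have hord : orderOf (h ^ 2) ∣ p := orderOf_dvd_of_pow_eq_one hu'
  have hord2 : orderOf (h ^ 2) ∣ Nat.card H := orderOf_dvd_natCard _
  have hone : h ^ 2 = 1 := by
    rcases (Nat.dvd_prime hp).1 hord with h3 | h3
    · exact orderOf_eq_one_iff.1 h3
    · rw [h3] at hord2
      exact absurd hord2 hH
  have hM : ((h : SL (ZMod p)) : Matrix (Fin 2) (Fin 2) (ZMod p)) *
      ((h : SL (ZMod p)) : Matrix (Fin 2) (Fin 2) (ZMod p)) = 1 := by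
    have h3 := congrArg (fun m : H => ((m : SL (ZMod p)) : Matrix (Fin 2) (Fin 2) (ZMod p))) hone
    have h4 : ((h ^ 2 : H) : SL (ZMod p)) = (h : SL (ZMod p)) * h := by
      rw [sq]
      rfl
    have h5 : (((h : SL (ZMod p)) * h : SL (ZMod p)) : Matrix (Fin 2) (Fin 2) (ZMod p)) = 1 := by
      rw [← h4]
      exact h3
    rw [← Matrix.SpecialLinearGroup.coe_mul]
    exact h5
  have hch := ch p h.1
  rw [hM, ht] at hch
  have hMe : ∀ i j, ((h : SL (ZMod p)) : Matrix (Fin 2) (Fin 2) (ZMod p)) i j =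
      e * (1 : Matrix (Fin 2) (Fin 2) (ZMod p)) i j := by
    intro i j
    have h3 := congrFun (congrFun hch i) j
    rw [Matrix.sub_apply, Matrix.smul_apply, smul_eq_mul] at h3
    have h4 : 2 * (((h : SL (ZMod p)) : Matrix (Fin 2) (Fin 2) (ZMod p)) i j -
        e * (1 : Matrix (Fin 2) (Fin 2) (ZMod p)) i j) = 0 := by
      have h5 : e * e = 1 := by rw [← sq]; exact he2
      have h6 : e * (2 * e * ((h : SL (ZMod p)) : Matrix (Fin 2) (Fin 2) (ZMod p)) i j -
        (1 : Matrix (Fin 2) (Fin 2) (ZMod p)) i j - (1 : Matrix (Fin 2) (Fin 2) (ZMod p)) i j) =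
          0 := by
        rw [← h3]
        ring
      linear_combination h6 - 2 * (((h : SL (ZMod p)) :
        Matrix (Fin 2) (Fin 2) (ZMod p)) i j) * h5
    rcases mul_eq_zero.1 h4 with h5 | h5
    · exact absurd h5 h20
    · exact sub_eq_zero.1 h5
  rcases he with he | he
  · apply h1
    ext i j
    rw [hMe, he, one_mul]
    rfl
  · apply h2
    ext i j
    rw [hMe, he, Matrix.SpecialLinearGroup.coe_neg, Matrix.SpecialLinearGroup.coe_one,
      Matrix.neg_apply, neg_one_mul]

/-- the subgroup `{1, -1}` -/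
def zz (p : ℕ) [Fact p.Prime] (H : Subgroup (SL (ZMod p))) : Subgroup H where
  carrier := {h | (h : SL (ZMod p)) = 1 ∨ (h : SL (ZMod p)) = -1}
  one_mem' := Or.inl rfl
  mul_mem' := by
    intro a b ha hb
    have h1 : ((a * b : H) : SL (ZMod p)) = (a : SL (ZMod p)) * b := rfl
    rcases ha with ha | ha <;> rcases hb with hb | hb
    · left
      rw [h1, ha, hb, one_mul]
    · right
      rw [h1, ha, hb, one_mul]
    · right
      rw [h1, ha, hb, mul_one]
    · left
      rw [h1, ha, hb, neg_mul_neg, one_mul]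
  inv_mem' := by
    intro a ha
    have h1 : ((a⁻¹ : H) : SL (ZMod p)) = (a : SL (ZMod p))⁻¹ := rfl
    rcases ha with ha | ha
    · left
      rw [h1, ha, inv_one]
    · right
      rw [h1, ha]
      refine inv_eq_of_mul_eq_one_left ?_
      rw [neg_mul_neg, one_mul]

theorem mem_zz (p : ℕ) [Fact p.Prime] (H : Subgroup (SL (ZMod p))) (h : H) :
    h ∈ zz p H ↔ (h : SL (ZMod p)) = 1 ∨ (h : SL (ZMod p)) = -1 := Iff.rfl

theorem neg_smul_pt (K : Type) [Field K] (ξ : Pt K) : (-1 : SL K) • ξ = ξ := by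
  induction ξ using Projectivization.ind with
  | h v hv =>
    rw [Projectivization.smul_mk, Projectivization.mk_eq_mk_iff']
    refine ⟨-1, ?_⟩
    have h1 : (-1 : SL K) • v = Matrix.mulVec ((-1 : SL K) : Matrix (Fin 2) (Fin 2) K) v := rfl
    rw [h1, Matrix.SpecialLinearGroup.coe_neg, Matrix.SpecialLinearGroup.coe_one,
      Matrix.neg_mulVec, Matrix.one_mulVec, neg_smul, one_smul]

theorem st_SBB (hF : ST_FIX) : ST_SBB := by
  intro p _ H hp3 hH
  classical
  have hK := hF (AlgebraicClosure (ZMod p))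
  let inst : MulAction H (Pt (AlgebraicClosure (ZMod p))) :=
    MulAction.compHom (Pt (AlgebraicClosure (ZMod p))) ((io p).comp H.subtype)
  have hsm : ∀ (h : H) (y : Pt (AlgebraicClosure (ZMod p))), h • y = io p (h : SL (ZMod p)) • y :=
    fun _ _ => rfl
  have hb := burn H (Pt (AlgebraicClosure (ZMod p))) (zz p H) ?_ ?_ ?_ ?_
  · rcases hb with hb | ⟨y, hy⟩
    · exact Or.inl hb
    · right
      obtain ⟨y1, y2, h12⟩ := small_orb H _ y hy
      exact ⟨y1, y2, fun h hh => h12 ⟨h, hh⟩⟩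
  · constructor
    intro n hn g
    have h1 : ((g * n * g⁻¹ : H) : SL (ZMod p)) =
      (g : SL (ZMod p)) * n * (g : SL (ZMod p))⁻¹ := rfl
    rcases hn with hn | hn
    · left
      rw [h1, hn, mul_one, mul_inv_cancel]
    · right
      rw [h1, hn, mul_neg, mul_one, neg_mul, mul_inv_cancel]
  · have hinj : Function.Injective (fun z : zz p H =>
        (⟨((z : H) : SL (ZMod p)), z.2⟩ : {g : SL (ZMod p) // g = 1 ∨ g = -1})) := by
      intro a b hab
      have h1 := congrArg Subtype.val hab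
      exact Subtype.ext (Subtype.ext h1)
    refine (Nat.card_le_card_of_injective _ hinj).trans ?_
    have h1 : Nat.card {g : SL (ZMod p) // g = 1 ∨ g = -1} =
        ({1, -1} : Set (SL (ZMod p))).ncard := rfl
    rw [h1]
    refine (Set.ncard_insert_le _ _).trans ?_
    rw [Set.ncard_singleton]
  · intro z hz y
    rw [hsm]
    rcases hz with hz | hz
    · rw [hz, map_one, one_smul]
    · rw [hz, io_neg]
      exact neg_smul_pt _ y
  · intro g hg
    rw [mem_zz] at hg
    obtain ⟨hg1, hg2⟩ := not_or.1 hg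
    have hi1 : io p (g : SL (ZMod p)) ≠ 1 := by
      intro h
      rw [← map_one (io p)] at h
      exact hg1 (io_inj p h)
    have hi2 : io p (g : SL (ZMod p)) ≠ -1 := by
      intro h
      rw [← io_neg] at h
      exact hg2 (io_inj p h)
    obtain ⟨y1, y2, hy, hne⟩ := hK (io p (g : SL (ZMod p))) hi1 hi2
    refine ⟨y1, y2, ?_, hy⟩
    intro h12
    have h3 := hne.1 h12
    rw [io_tr, ← map_pow] at h3
    have h4 : algebraMap (ZMod p) (AlgebraicClosure (ZMod p)) (tr (g : SL (ZMod p)) ^ 2) =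
        algebraMap (ZMod p) (AlgebraicClosure (ZMod p)) 4 := by
      rw [h3, map_ofNat]
    exact ntr p H hp3 hH g hg1 hg2
      ((algebraMap (ZMod p) (AlgebraicClosure (ZMod p))).injective h4)

end Pool.Agent.Helper52.XP
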