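import Pool.Agent.Helper81.XP.StC
import Pool.Agent.Helper81.XP.Pj
import Pool.Agent.Helper52.XP.SBB

set_option autoImplicit false

open Finset
open scoped Pointwise LinearAlgebra.Projectivization

namespace Pool.Agent.Helper52.XP

open Pool.Agent.Helper81.XP

/-- a generation criterion -/
theorem st_GN2 (hU : ST_SBU) (hB : ST_SBB) : ST_GN2 := by
  intro p _ hp5 g h hg hfix
  by_contra hH
  have hgH : g ∈ Subgroup.closure ({g, h} : Set (SL (ZMod p))) :=
    Subgroup.subset_closure (Or.inl rfl)
  have hhH : h ∈ Subgroup.closure ({g, h} : Set (SL (ZMod p))) :=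
    Subgroup.subset_closure (Or.inr rfl)
  by_cases hpH : p ∣ Nat.card (Subgroup.closure ({g, h} : Set (SL (ZMod p))))
  · obtain ⟨ξ, hξ⟩ := hU p _ hH hpH
    refine hfix ξ (hξ g hgH) ?_
    rw [hξ h hhH]
    exact hξ g hgH
  · rcases hB p _ (by omega) hpH with hc | ⟨ξ1, ξ2, hx⟩
    · have hc0 : 1 ≤ Nat.card (Subgroup.closure ({g, h} : Set (SL (ZMod p)))) := Nat.card_pos
      have h1 := pow_card_eq_one' (x := (⟨g, hgH⟩ :
        Subgroup.closure ({g, h} : Set (SL (ZMod p)))))
      exact hg.2.2 _ hc0 hc (congrArg Subtype.val h1)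
    · by_cases h1 : io p g • ξ1 = ξ1
      · have h2 : io p g • ξ2 = ξ2 := by
          rcases (hx g hgH).2 with h3 | h3
          · have h4 : ξ2 = ξ1 := smul_left_cancel (io p g) (h3.trans h1.symm)
            rw [h4]
            exact h1
          · exact h3
        rcases (hx h hhH).1 with h3 | h3
        · refine hfix ξ1 h1 ?_
          rw [h3]
          exact h1
        · refine hfix ξ1 h1 ?_
          rw [h3]
          exact h2
      · have h1' : io p g • ξ1 = ξ2 := ((hx g hgH).1).resolve_left h1
        have hne : ξ1 ≠ ξ2 := by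
          intro h4
          exact h1 (h1'.trans h4.symm)
        have h2 : io p g • ξ2 = ξ1 := by
          rcases (hx g hgH).2 with h3 | h3
          · exact h3
          · exact absurd (smul_left_cancel (io p g) (h1'.trans h3.symm)) hne
        obtain ⟨c, hc1, hc2⟩ := exists_move ξ1 ξ2 hne
        have e12 : (c * io p g * c⁻¹) • e1 (AlgebraicClosure (ZMod p)) =
            e2 (AlgebraicClosure (ZMod p)) := by
          rw [← hc1, ← hc2]
          exact (conj_smul_eq_iff c (io p g) ξ1 ξ2).2 h1'
        have e21 : (c * io p g * c⁻¹) • e2 (AlgebraicClosure (ZMod p)) =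
            e1 (AlgebraicClosure (ZMod p)) := by
          rw [← hc1, ← hc2]
          exact (conj_smul_eq_iff c (io p g) ξ2 ξ1).2 h2
        have t0 : tr (c * io p g * c⁻¹) = 0 := by
          rw [tr_eq, (smul_e1_eq_e2 _).1 e12, (smul_e2_eq_e1 _).1 e21, add_zero]
        rw [tr_conj, io_tr] at t0
        have t1 : tr g = 0 := (map_eq_zero _).1 t0
        have hM := ch p g
        rw [t1, zero_smul, zero_sub] at hM
        apply hg.2.2 4 (by norm_num) (by norm_num)
        apply Subtype.ext
        have h5 : ((g ^ 4 : SL (ZMod p)) : Matrix (Fin 2) (Fin 2) (ZMod p)) =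
            ((g : Matrix (Fin 2) (Fin 2) (ZMod p)) * (g : Matrix (Fin 2) (Fin 2) (ZMod p))) *
            ((g : Matrix (Fin 2) (Fin 2) (ZMod p)) * (g : Matrix (Fin 2) (Fin 2) (ZMod p))) := by
          rw [Matrix.SpecialLinearGroup.coe_pow, ← sq, ← sq, ← pow_mul]
        rw [h5, hM, neg_mul_neg, one_mul]
        rfl

end Pool.Agent.Helper52.XP
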